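import Pool.Agent.H43R3.SN.StmtsA

/-! Task G of project H43-SN. -/

set_option autoImplicit false

open Finset

namespace Pool.Agent.H170.SN

open Pool.Agent.H43R3.SN

open Classical in
/-- positions `x` of a set whose mirror images `u - x` are holes -/
lemma mirror {α : Type} {V : Finset α} {gam : α → α → Prop} {g : α → ℕ} {S h Y : ℕ}
    {U : Finset ℕ} {t : ℕ → α} (hSD : SD V gam g S h Y U t) (u : ℕ) (hu : u ≤ Y)
    (P : Finset ℕ) (hP : ∀ x ∈ P, x ≤ u) :
    (P.filter (fun x => ∀ v ∈ V, g v ≠ u - x)).card ≤ h := by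
  rw [← card_image_of_injOn (f := fun x => u - x)]
  · apply hSD.hole
    intro y hy
    rw [mem_image] at hy
    obtain ⟨x, hx, rfl⟩ := hy
    rw [mem_filter] at hx
    refine ⟨?_, hx.2⟩
    show u - x ≤ Y
    omega
  · intro x hx x' hx' hxx
    rw [mem_coe, mem_filter] at hx hx'
    have h1 := hP x hx.1
    have h2 := hP x' hx'.1
    simp only at hxx
    omega

open Classical in
theorem taskG : TaskG := by
  intro hE α V gam g S h Y U t hSD hS u₁ hu₁ u₂ hu₂ u₃ hu₃ h12 h23
  by_contra hcon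
  push Not at hcon
  have hU1 := hSD.UY u₁ hu₁
  have hU2 := hSD.UY u₂ hu₂
  have hU3 := hSD.UY u₃ hu₃
  obtain ⟨hE1, -⟩ := hE α V gam g S h Y U t hSD hS
  set P : Finset ℕ := Icc (S + h + 2) (S + 6 * h + 9) with hP
  have hPc : P.card = 5 * h + 8 := by
    rw [hP, Nat.card_Icc]; omega
  have hPle : ∀ x ∈ P, S + h + 2 ≤ x ∧ x ≤ u₁ := by
    intro x hx
    rw [hP, mem_Icc] at hx
    omega
  set A := P.filter (fun x => ∀ v ∈ V, g v ≠ x) with hA
  have hAc : A.card ≤ h := by
    apply hSD.hole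
    intro y hy
    rw [hA, mem_filter] at hy
    exact ⟨by have := hPle y hy.1; omega, hy.2⟩
  set B := (Icc (S - h - 3) S).image (fun i => g (t i)) with hB
  have hBc : B.card ≤ h + 4 := by
    refine card_image_le.trans ?_
    rw [Nat.card_Icc]; omega
  set C₁ := P.filter (fun x => ∀ v ∈ V, g v ≠ u₁ - x) with hC1
  set C₂ := P.filter (fun x => ∀ v ∈ V, g v ≠ u₂ - x) with hC2
  set C₃ := P.filter (fun x => ∀ v ∈ V, g v ≠ u₃ - x) with hC3
  have hC1c : C₁.card ≤ h := mirror hSD u₁ (by omega) P (fun x hx => (hPle x hx).2)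
  have hC2c : C₂.card ≤ h := mirror hSD u₂ (by omega) P (fun x hx => by have := (hPle x hx).2; omega)
  have hC3c : C₃.card ≤ h := mirror hSD u₃ (by omega) P (fun x hx => by have := (hPle x hx).2; omega)
  set D : Finset ℕ := {u₁ / 2, u₂ / 2, u₃ / 2} with hD
  have hDc : D.card ≤ 3 := card_le_three
  have hcover : P ⊆ A ∪ B ∪ C₁ ∪ C₂ ∪ C₃ ∪ D := by
    intro x hx
    have hx' := hPle x hx
    simp only [mem_union]
    by_cases c1 : ∀ v ∈ V, g v ≠ x
    · left; left; left; left; left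
      rw [hA, mem_filter]; exact ⟨hx, c1⟩
    push Not at c1
    obtain ⟨v, hv, hvx⟩ := c1
    by_cases c2 : ∃ i ≤ S, v = t i
    · obtain ⟨i, hi, rfl⟩ := c2
      left; left; left; left; right
      rw [hB, mem_image]
      refine ⟨i, ?_, hvx⟩
      rw [mem_Icc]
      refine ⟨?_, hi⟩
      by_contra h4
      have h5 := (hE1 i (by omega)).1
      omega
    · by_cases d1 : ∀ w ∈ V, g w ≠ u₁ - x
      · left; left; left; right
        rw [hC1, mem_filter]; exact ⟨hx, d1⟩
      by_cases d2 : ∀ w ∈ V, g w ≠ u₂ - x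
      · left; left; right
        rw [hC2, mem_filter]; exact ⟨hx, d2⟩
      by_cases d3 : ∀ w ∈ V, g w ≠ u₃ - x
      · left; right
        rw [hC3, mem_filter]; exact ⟨hx, d3⟩
      push Not at d1 d2 d3
      obtain ⟨w₁, hw1, hg1⟩ := d1
      obtain ⟨w₂, hw2, hg2⟩ := d2
      obtain ⟨w₃, hw3, hg3⟩ := d3
      right
      rw [hD]
      by_contra hno
      simp only [mem_insert, mem_singleton, not_or] at hno
      obtain ⟨n1, n2, n3⟩ := hno
      have k1 : v ≠ w₁ := by rintro rfl; omega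
      have k2 : v ≠ w₂ := by rintro rfl; omega
      have k3 : v ≠ w₃ := by rintro rfl; omega
      have g1 : gam v w₁ := (hSD.adj v hv w₁ hw1 k1 (by omega)).mpr (by
        have : g v + g w₁ = u₁ := by omega
        rw [this]; exact hu₁)
      have g2 : gam v w₂ := (hSD.adj v hv w₂ hw2 k2 (by omega)).mpr (by
        have : g v + g w₂ = u₂ := by omega
        rw [this]; exact hu₂)
      have g3 : gam v w₃ := (hSD.adj v hv w₃ hw3 k3 (by omega)).mpr (by
        have : g v + g w₃ = u₃ := by omega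
        rw [this]; exact hu₃)
      have n12 : w₁ ≠ w₂ := by rintro rfl; omega
      have n13 : w₁ ≠ w₃ := by rintro rfl; omega
      have n23 : w₂ ≠ w₃ := by rintro rfl; omega
      have hlow := hSD.low v hv (fun i hi hvi => c2 ⟨i, hi, hvi⟩) (by omega) {w₁, w₂, w₃} (by
        intro w hw
        simp only [mem_insert, mem_singleton] at hw
        rcases hw with rfl | rfl | rfl
        · exact ⟨hw1, g1⟩
        · exact ⟨hw2, g2⟩
        · exact ⟨hw3, g3⟩)
      rw [card_eq_three.mpr ⟨w₁, w₂, w₃, n12, n13, n23, rfl⟩] at hlow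
      omega
  have hfin := card_le_card hcover
  have e1 := card_union_le (A ∪ B ∪ C₁ ∪ C₂ ∪ C₃) D
  have e2 := card_union_le (A ∪ B ∪ C₁ ∪ C₂) C₃
  have e3 := card_union_le (A ∪ B ∪ C₁) C₂
  have e4 := card_union_le (A ∪ B) C₁
  have e5 := card_union_le A B
  omega

end Pool.Agent.H170.SN
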